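import Pool.Agent.H916L.Main2

/-!
# The Tate conjecture for diagonal hypersurfaces over number fields

Degrees `m = p ^ a * q ^ b` or `2 * p ^ a * q ^ b`, `p`, `q` odd primes which are not both squares
modulo each other, and any number field `k` of odd degree or, more generally, such that the largest
subfield of `k` which embeds in the field of `2m`-th roots of unity has odd degree. Every eigenline
of the cohomology of a product of diagonal hypersurfaces of degree `m` over `k` on which the Galois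
group of `k(ζ_m)` acts trivially belongs to the family generated by the standard characters, whose
eigenlines are algebraic.
-/

namespace Pool.Agent.Results.MP_4776b1_ag.DiagonalNumberFields

open Pool.Agent.H916R2 Pool.Agent.H916L NumberField
open scoped TensorProduct

theorem result {p q : ℕ} (hp : p.Prime) (hq : q.Prime) (hp2 : p ≠ 2) (hq2 : q ≠ 2) (hpq : p ≠ q)
    (hsq : ¬ (IsSquare ((q : ℕ) : ZMod p) ∧ IsSquare ((p : ℕ) : ZMod q)))
    {a b m : ℕ} (ha : 0 < a) (hb : 0 < b) (hm : m = p ^ a * q ^ b ∨ m = 2 * (p ^ a * q ^ b))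
    (k : Type) [Field k] [NumberField k] (hk : Odd (Module.finrank ℚ k) ∨
      Odd (Nat.card (MaximalSpectrum (k ⊗[ℚ] CyclotomicField (2 * m) ℚ))))
    {s : Multiset (ZMod m × 𝓞 k)} (hs : s ≠ 0) (heven : Even (Multiset.card s))
    (h0 : ∀ z ∈ s, z.1 ≠ 0 ∧ z.2 ≠ 0) (hsum : (s.map Prod.fst).sum = 0)
    (hR : RationalOver k m s) : Generated m (fun _ => False) (s.map Prod.fst) := by
  have hpos : 2 ≤ p ^ a * q ^ b := by
    have h1 : 1 ≤ p ^ a := Nat.one_le_iff_ne_zero.mpr (pow_pos hp.pos a).ne'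
    have h2 : 2 ≤ q ^ b := le_trans hq.two_le (Nat.le_self_pow hb.ne' q)
    nlinarith
  have hm2 : 2 ≤ m := by rcases hm with h | h <;> omega
  have : NeZero (2 * m) := ⟨by omega⟩
  have hP := hasPrimes_of_odd (k := k) hk
  have hH := hodge_over2 (n := 2 * m) (dvd_mul_left m 2) hm2 hP (fun z hz => (h0 z hz).1) heven hsum
    (fun z hz => (h0 z hz).2) hR
  obtain ⟨c, hc, hcm⟩ : ∃ c : ℕ, (c = 1 ∨ c = 2) ∧ c * (p ^ a * q ^ b) = m := by
    rcases hm with h | h
    · exact ⟨1, Or.inl rfl, by rw [h, one_mul]⟩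
    · exact ⟨2, Or.inr rfl, by rw [h]⟩
  by_cases hleg : IsSquare ((q : ℕ) : ZMod p)
  · have hleg2 : ¬ IsSquare ((p : ℕ) : ZMod q) := fun h => hsq ⟨hleg, h⟩
    exact main_over2 hq hp hq2 hp2 hpq.symm hleg2 hb ha hc
      (by rw [← hcm, Nat.mul_comm (q ^ b) (p ^ a)]) hP hH hs (fun z hz => (h0 z hz).2) hR
  · exact main_over2 hp hq hp2 hq2 hpq hleg ha hb hc hcm hP hH hs (fun z hz => (h0 z hz).2) hR

end Pool.Agent.Results.MP_4776b1_ag.DiagonalNumberFields
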