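import Mathlib
import Pool.Agent.H925R2.AV
import Pool.Agent.H925R2.DT

/-!
# Tate classes on all powers of abelian varieties with doubly transitive real Frobenius field

Let `q = p ^ a` and let `f` be an irreducible rational polynomial of degree `2 g` all of whose
complex roots have absolute value `√q`; put `K = ℚ[X] / (f)`.  (For an abelian variety `A` over the
field with `q` elements whose Frobenius has characteristic polynomial a power of `f`, `K = ℚ(π)` and
the roots of `f` are the Frobenius eigenvalues on `H¹(Āⁿ)`.)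

Assume that
* the Galois group of `f` acts doubly transitively on the `g` numbers `x + q / x` (the conjugates of
  `π + π̄`, a generator of the maximal real subfield of `K`),
* `K` contains no imaginary quadratic field,
* not all slopes of `f` are `1/2`,
* `g` is odd, or `g = 2`, or `g - 1` is prime.

Then, for every vector space `V` over an algebraically closed field `Ω` of characteristic zero and
every endomorphism `F` that is diagonalisable with eigenvalues among the roots of `f`, for all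
`m` and all `s ≥ 1`, every element of `Λ^{2m} V` on which `F ^ s` acts as `q ^ {ms}` is a polynomial
in the elements of `Λ² V` on which `F` acts as `q`.  There is no further condition on the Newton
polygon.
-/

namespace Pool.Agent.Results.MP_4776b1_ag.DoublyTransitive

open Polynomial

/-- The Galois group of `f` (acting on its splitting field) is doubly transitive on the set of
numbers `x + q / x`, `x` a root of `f`. -/
def DoublyTransitiveOnTraces (f : ℚ[X]) (q : ℚ) : Prop :=
  ∀ x y x' y' : f.SplittingField, aeval x f = 0 → aeval y f = 0 → aeval x' f = 0 →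
    aeval y' f = 0 → x + (q : f.SplittingField) / x ≠ y + (q : f.SplittingField) / y →
    x' + (q : f.SplittingField) / x' ≠ y' + (q : f.SplittingField) / y' →
    ∃ σ : f.Gal, σ (x + (q : f.SplittingField) / x) = x' + (q : f.SplittingField) / x' ∧
      σ (y + (q : f.SplittingField) / y) = y' + (q : f.SplittingField) / y'

theorem result (p : ℕ) [Fact p.Prime] (a : ℕ) (ha : 0 < a)
    (f : ℚ[X]) (hf : Irreducible f) (g : ℕ) (hdeg : f.natDegree = 2 * g)
    (hg : Odd g ∨ g = 2 ∨ (g - 1).Prime)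
    (hweil : ∀ z : ℂ, aeval z f = 0 → ‖z‖ ^ 2 = (p : ℝ) ^ a)
    (hdt : DoublyTransitiveOnTraces f ((p : ℚ) ^ a))
    (hK : ∀ (z : AdjoinRoot f) (n : ℕ), 0 < n → z ^ 2 ≠ -(n : AdjoinRoot f))
    (hns : ∃ α : PadicAlgCl p, aeval α f = 0 ∧ ‖α‖ ^ 2 ≠ ((p : ℝ) ^ a)⁻¹)
    (Ω : Type*) [Field Ω] [IsAlgClosed Ω] [CharZero Ω]
    (V : Type*) [AddCommGroup V] [Module Ω V] (F : V →ₗ[Ω] V)
    (hF : Submodule.span Ω {v : V | ∃ μ : Ω, aeval μ f = 0 ∧ F v = μ • v} = ⊤)
    (m s : ℕ) (hs : 0 < s) (x : ExteriorAlgebra Ω V) (hx : x ∈ ⋀[Ω]^(2 * m) V)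
    (hFx : ExteriorAlgebra.map (F ^ s) x = (((p : Ω) ^ a) ^ m) ^ s • x) :
    x ∈ Algebra.adjoin Ω
      {y : ExteriorAlgebra Ω V | y ∈ ⋀[Ω]^2 V ∧ ExteriorAlgebra.map F y = (p : Ω) ^ a • y} := by
  have hq : (0 : ℚ) < (p : ℚ) ^ a := pow_pos (by exact_mod_cast (Fact.out : p.Prime).pos) a
  have hweil' : ∀ z : ℂ, aeval z f = 0 → ‖z‖ ^ 2 = (((p : ℚ) ^ a : ℚ) : ℝ) := by
    intro z hz
    rw [hweil z hz]
    push_cast
    rfl
  have hns' : ∃ α : PadicAlgCl p, aeval α f = 0 ∧ Pool.Agent.H925R2.dev p ((p : ℚ) ^ a) α ≠ 0 := by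
    obtain ⟨α, hα, h⟩ := hns
    refine ⟨α, hα, fun h0 => h ?_⟩
    have hα0 : α ≠ 0 := Pool.Agent.H925R2.padic_root_ne_zero hf hq hweil' p α hα
    unfold Pool.Agent.H925R2.dev at h0
    rw [Pool.Agent.H925R2.norm_pow_cast] at h0
    have h1 : Real.log (‖α‖ ^ 2) = Real.log (((p : ℝ) ^ a)⁻¹) := by
      rw [Real.log_pow]
      push_cast
      linarith
    have h2 : (0 : ℝ) < ‖α‖ ^ 2 := pow_pos (norm_pos_iff.2 hα0) 2
    have h3 : (0 : ℝ) < ((p : ℝ) ^ a)⁻¹ :=
      inv_pos.2 (pow_pos (by exact_mod_cast (Fact.out : p.Prime).pos) a)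
    exact Real.log_injOn_pos h2 h3 h1
  let e : f.SplittingField →ₐ[ℚ] PadicAlgCl p := IsAlgClosed.lift
  refine Pool.Agent.H925R2.ext_of_balanced p a hf hweil ?_ F hF m s ?_ x hx hFx
  · intro y hy h
    have h1 := Pool.Agent.H925R2.rinv_ne_of_dev hf hq hweil' p e hns'
      ⟨y, mem_rootSet.2 ⟨hf.ne_zero, hy⟩⟩
    exact h1 (Subtype.ext h)
  · intro _ L hlen hL hprod y hy
    exact Pool.Agent.H925R2.balanced_of_norel hf hq hweil' p e
      (fun c hc hrel => Pool.Agent.H925R2.norel_A hf hq hweil' p e g hdeg hg hdt hK hns' c hc hrel)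
      L m s hs hlen hL hprod y hy

end Pool.Agent.Results.MP_4776b1_ag.DoublyTransitive
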