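import Pool.Agent.H914R2.SMain

open CategoryTheory AlgebraicGeometry

universe u v w

namespace Pool.Agent.Results.MP_4776b1_ag.SingularInjectivity

open Pool.Agent.H914 Pool.Agent.H914.VarClass Pool.Agent.H914.VarClass.Obj

/-- **Injectivity of the cycle map for singular and open varieties generated by a family.** Let
`(X_j, f_j)` be a family of varieties with endomorphisms satisfying the hypotheses of the theorem
on the conjecture D in the Weil cohomology theory `W`. Let `X` be a variety whose cohomology embeds
algebraically into a sum of cohomologies of products of members of the family, and let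
`U` be a subspace of `H(X)` whose part of degree `2 c` is that of the sum of the images of finitely
many algebraic correspondences with rational coefficients from such varieties to `X`. Then cycles
of codimension `c` on `X` whose classes in `H(X) / U` are linearly independent over the rational
numbers have classes which are linearly independent over the coefficient field. -/
theorem result {k : Type u} [Field k] {𝒱 : VarClass k} {ops : CycleOps 𝒱}
    (W : WeilCohomology.{u, v} ops) {ι : Type w} (P : ι → EndVar 𝒱) (q : ℕ) (hq : q ≠ 0)
    (hD : ∀ j, HomEqNum W (P j).X) (hdeg : ∀ j, HasFrobeniusDegree W (P j) q)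
    (hss : ∀ j, FrobeniusSemisimple W (P j).X (P j).f)
    (hT : ∀ i j, AlgebraicHoms W (P i) (P j) q)
    (hF : ∀ Q, IsFamilyProduct P Q → FrobeniusOnCycles W Q.X Q.f q)
    (hG : StableSymmetric W.K (familyEigenvalues W P) q)
    (X : 𝒱.Obj) (hX : GeneratedBy W P X) (U : Submodule W.K (W.H X)) (c : ℕ)
    (hU : IsFamilyImage W P U c) : StayIndependent U (algClasses W X c) :=
  injective_modulo hq hD hdeg hss hT hF hG hX hU

end Pool.Agent.Results.MP_4776b1_ag.SingularInjectivity
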